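import Mathlib
import Pool.Agent.H837Z.AntiTree

set_option autoImplicit false

namespace Pool.Agent.Results.MP_22f26a_co.DenseCounter

/-- For every `m ≥ 1` and all large odd `k` there are a regular tournament on `k + 2` vertices
(all in- and outdegrees `(k + 1) / 2`) and a balanced antidirected tree with `k` arcs and maximum
total degree at most `(k + 1) / m + 3` that it does not contain. -/
theorem result (m : ℕ) (hm : 0 < m) : ∃ N : ℕ, ∀ k : ℕ, N ≤ k → Odd k →
    ∃ D : Digraph (Fin (k + 2)),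
      (∀ v, ¬ D.Adj v v) ∧ (∀ u v, D.Adj u v → ¬ D.Adj v u) ∧
      (∀ v, 2 * ({w | D.Adj v w} : Set (Fin (k + 2))).ncard = k + 1 ∧
        2 * ({w | D.Adj w v} : Set (Fin (k + 2))).ncard = k + 1) ∧
      ∃ T : Fin (k + 1) → Fin (k + 1) → Prop,
        (SimpleGraph.fromRel T).IsTree ∧
        (∀ v, ¬ ((∃ a, T a v) ∧ (∃ b, T v b))) ∧
        ({v | ∃ b, T v b} : Set (Fin (k + 1))).ncard = ({v | ∃ a, T a v} : Set (Fin (k + 1))).ncard ∧
        (∀ v, ({w | T v w ∨ T w v} : Set (Fin (k + 1))).ncard ≤ (k + 1) / m + 3) ∧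
        ¬ ∃ f : Fin (k + 1) → Fin (k + 2), Function.Injective f ∧
          ∀ a b, T a b → D.Adj (f a) (f b) :=
  Pool.Agent.H837Z.Anti.main m hm

end Pool.Agent.Results.MP_22f26a_co.DenseCounter
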